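import Pool.Agent.Helper19.HV.Curve

/-!
# Project HV (MP_bae8ce_ag), module EX2
-/

set_option autoImplicit false

open Polynomial

namespace Pool.Agent.Helper19.HV

noncomputable section

open PL

/-- EX2: functions on `P1 (F(t))` which kill `R 2` and the constants. -/
theorem mEX2
    (hFTR : ∀ {G N : Type} [Field G] [AddCommGroup N] [Module ℚ N] (ψ : P1 G → N), Kil 2 ψ →
      FT5 (fun x : G => ψ (some x)) ∧ ψ none = 0)
    {F N : Type} [Field F] [AddCommGroup N] [Module ℚ N]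
    (hEXF : ∀ ψ : RatFunc F → N, FT5 ψ → (∀ c : F, ψ (RatFunc.C c) = 0) →
      ∃ A : V (RatFunc F) →ₗ[ℚ] V (RatFunc F) →ₗ[ℚ] N, Al2 A ∧
        (∀ (c : F) v, A (lg (RatFunc.C c)) v = 0) ∧ ∀ x, ψ x = A (lg (1 - x)) (lg x))
    (ψ : P1 (RatFunc F) → N) (h : Kil 2 ψ) (hc : ∀ c, ψ (cst c) = 0) :
    ∃ A : V (RatFunc F) →ₗ[ℚ] V (RatFunc F) →ₗ[ℚ] N, Al2 A ∧
      (∀ (c : F) v, A (lg (RatFunc.C c)) v = 0) ∧ ∀ x, ψ x = A (cl1 x) (cl x) := by
  obtain ⟨h5, h0⟩ := hFTR ψ h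
  obtain ⟨A, hA, hA2, hA3⟩ := hEXF (fun x => ψ (some x)) h5 fun c => hc (some c)
  refine ⟨A, hA, hA2, fun x => ?_⟩
  cases x with
  | none =>
    rw [h0, cl1, cl, map_zero]
  | some x => exact hA3 x

end

end Pool.Agent.Helper19.HV
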