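import Pool.Agent.Helper19.HV.StC

/-!
# Project HV (MP_bae8ce_ag), module KAP: contraction maps of exterior powers
-/

set_option autoImplicit false

open scoped TensorProduct

namespace Pool.Agent.Helper19.HV

noncomputable section

open PL

private lemma kap_gen {U U' N : Type} [AddCommGroup U] [Module ℚ U] [AddCommGroup U']
    [Module ℚ U'] [AddCommGroup N] [Module ℚ N] (o : U →ₗ[ℚ] ℚ) (l : U →ₗ[ℚ] U') (j : ℕ)
    (p : U' [⋀^Fin j]→ₗ[ℚ] N) : ∃ A : U [⋀^Fin (j + 1)]→ₗ[ℚ] N,
      (∀ v : Fin (j + 1) → U, (∀ i, o (v i) = 0) → A v = 0) ∧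
      ∀ (u : Fin j → U) (w : U), (∀ i, o (u i) = 0) →
        A (Fin.snoc (α := fun _ => U) u w) = o w • p fun i => l (u i) := by
  obtain ⟨f, hf⟩ : ∃ f : U →ₗ[ℚ] (U [⋀^Fin j]→ₗ[ℚ] N), ∀ v u, f v u = o v • p fun i => l (u i) :=
    ⟨o.smulRight (p.compLinearMap l), fun v u => rfl⟩
  refine ⟨((-1 : ℤ) ^ j) • AlternatingMap.alternatizeUncurryFin f, ?_, ?_⟩
  · intro v hv
    rw [AlternatingMap.smul_apply, AlternatingMap.alternatizeUncurryFin_apply]
    rw [Finset.sum_eq_zero fun i _ => by rw [hf, hv, zero_smul, smul_zero], smul_zero]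
  · intro u w hu
    rw [AlternatingMap.smul_apply, AlternatingMap.alternatizeUncurryFin_apply,
      Fin.sum_univ_castSucc, Finset.sum_eq_zero fun i _ => by
        rw [hf, Fin.snoc_castSucc, hu, zero_smul, smul_zero], zero_add, hf, Fin.snoc_last]
    have h1 : ∀ i : Fin j, Fin.removeNth (α := fun _ => U) (Fin.last j)
        (Fin.snoc (α := fun _ => U) u w) i = u i := by
      intro i
      simp [Fin.removeNth]
    simp only [h1, Fin.val_last]
    rw [smul_smul, ← mul_pow]
    simp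

/-- KAP. -/
theorem mKAP : sKAP := by
  intro G H _ _ o l j
  obtain ⟨A, hA1, hA2⟩ := kap_gen o l j (pr H j)
  refine ⟨exteriorPower.alternatingMapLinearEquiv A, ?_, ?_⟩
  · intro v hv
    rw [← hA1 v hv]
    exact exteriorPower.alternatingMapLinearEquiv_apply_ιMulti A v
  · intro u w hu
    rw [← hA2 u w hu]
    exact exteriorPower.alternatingMapLinearEquiv_apply_ιMulti A _

end

end Pool.Agent.Helper19.HV
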