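import Pool.Agent.Helper19.HV.XS

/-!
# Project HV (MP_bae8ce_ag), module Y2A: removing the constants, part one
-/

set_option autoImplicit false

namespace Pool.Agent.Helper19.HV

noncomputable section

open PL

/-- Y2A. -/
theorem mY2A {F : Type} [Field F] {cV : V F →ₗ[ℚ] V (RatFunc F)}
    {lc : V (RatFunc F) →ₗ[ℚ] V F} {od : V (RatFunc F) →ₗ[ℚ] (F →₀ ℚ)} (hs : Spl cV lc od)
    (hEX3 : ∀ {N : Type} [AddCommGroup N] [Module ℚ N] (ψ : P1 (RatFunc F) → N), Kil 3 ψ →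
      (∀ c, ψ (cst c) = 0) →
      ∃ M : V (RatFunc F) →ₗ[ℚ] V (RatFunc F) →ₗ[ℚ] V (RatFunc F) →ₗ[ℚ] N,
        (∀ v w, M v v w = 0) ∧ (∀ (c : F) v w, M (lg (RatFunc.C c)) v w = 0) ∧
        (∀ (c : F) v w, M v w (lg (RatFunc.C c)) = 0) ∧ ∀ x, ψ x = M (cl1 x) (cl x) (cl x))
    (hLAF : ∀ L4 : F4 F, (∀ v k l, L4 v v k l = 0) → (∀ v w k, L4 v w k k = 0) →
      (∀ (c d u : F) k, L4 (lg (RatFunc.C c)) (lg (RatFunc.C d)) (lg (RatFunc.C u)) k = 0) →
      Ls fun x => L4 (cl1 x) (cl x))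
    {Ψ : P1 (RatFunc F) → (V (RatFunc F) →ₗ[ℚ] ℚ)} (hΨ : Ps Ψ) :
    ∃ L, Ls L ∧ ∀ (x : P1 (RatFunc F)) (u : F),
      L x (cl x) (lg (RatFunc.C u)) = Ψ x (lg (RatFunc.C u)) := by
  obtain ⟨M, hM1, hM2, hM3, hM4⟩ := hEX3 (N := V F →ₗ[ℚ] ℚ)
    (fun x => (LinearMap.lcomp ℚ ℚ cV) (Ψ x)) (by
      intro α hα
      have h1 := Finsupp.apply_linearCombination ℚ (LinearMap.lcomp ℚ ℚ cV) Ψ α
      rw [hΨ.kil α hα, map_zero] at h1
      exact h1.symm) (fun c => by rw [hΨ.cst c, map_zero])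
  obtain ⟨L4, hL4⟩ := mk4 (fun a b k l => M a b k (lc l) - M a b l (lc k))
    (fun _ _ _ => ⟨fun _ _ => by
      simp only [map_add, LinearMap.add_apply]
      ring, fun _ _ => by
      simp only [map_smul, LinearMap.smul_apply, smul_eq_mul]
      ring⟩)
    (fun _ _ _ => ⟨fun _ _ => by
      simp only [map_add, LinearMap.add_apply]
      ring, fun _ _ => by
      simp only [map_smul, LinearMap.smul_apply, smul_eq_mul]
      ring⟩)
    (fun _ _ _ => ⟨fun _ _ => by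
      simp only [map_add, LinearMap.add_apply]
      ring, fun _ _ => by
      simp only [map_smul, LinearMap.smul_apply, smul_eq_mul]
      ring⟩)
    (fun _ _ _ => ⟨fun _ _ => by
      simp only [map_add, LinearMap.add_apply]
      ring, fun _ _ => by
      simp only [map_smul, LinearMap.smul_apply, smul_eq_mul]
      ring⟩)
  refine ⟨fun x => L4 (cl1 x) (cl x), hLAF L4 ?_ ?_ ?_, ?_⟩
  · intro v k l
    rw [hL4, hM1, hM1, LinearMap.zero_apply, LinearMap.zero_apply, sub_self]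
  · intro v w k
    rw [hL4, sub_self]
  · intro c d u k
    rw [hL4, hM2, hM2, LinearMap.zero_apply, LinearMap.zero_apply, sub_self]
  · intro x u
    show L4 (cl1 x) (cl x) (cl x) (lg (RatFunc.C u)) = _
    rw [hL4, hM3, LinearMap.zero_apply, sub_zero, hs.lc_C, ← hM4]
    show Ψ x (cV (lg u)) = _
    rw [hs.cV_lg]

end

end Pool.Agent.Helper19.HV
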